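import Pool.Agent.DQ2.Stmts

set_option autoImplicit false

open MvPolynomial

namespace Pool.Agent.DQ2.H46

open Pool.Agent.DQ2

/-- evaluation commutes with a ring homomorphism -/
theorem asm_map {L E M : Type} [Field L] [Field E] (φ : L →+* E) (a : M → L)
    (p : MvPolynomial M L) : eval (fun c => φ (a c)) (map φ p) = φ (eval a p) := by
  rw [eval_map]
  have h := eval₂_comp_left φ (RingHom.id L) a p
  rw [eval₂_id] at h
  rw [h]
  rfl

/-- ASM: density from a dominant parametrisation -/
theorem asm (hW : WRS) (hE : EXT) (hP : PRD) : ASM := by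
  intro K L M _ _ _ _ _ _ N F Φ h2 hT hD G y hy hG
  classical
  have hcard : Fintype.card (L →ₐ[K] AlgebraicClosure K) = Module.finrank K L :=
    AlgHom.card K L (AlgebraicClosure K)
  let e : Fin (Module.finrank K L) ≃ (L →ₐ[K] AlgebraicClosure K) :=
    (Fintype.equivFinOfCardEq hcard).symm
  let sub : MvPolynomial (Fin (Module.finrank K L) × Fin N) (AlgebraicClosure K) →
      MvPolynomial (Fin (Module.finrank K L) × M) (AlgebraicClosure K) :=
    fun G => bind₁ (fun q : Fin (Module.finrank K L) × Fin N =>
      rename (fun c => (q.1, c)) (map (e q.1 : L →+* AlgebraicClosure K) (Φ q.2))) G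
  have hsub : ∀ (G : MvPolynomial (Fin (Module.finrank K L) × Fin N) (AlgebraicClosure K))
      (v : Fin (Module.finrank K L) × M → AlgebraicClosure K),
      eval v (sub G) = eval (fun q => eval (fun c => v (q.1, c))
        (map (e q.1 : L →+* AlgebraicClosure K) (Φ q.2))) G := by
    intro G v
    have h := eval₂Hom_bind₁ (RingHom.id (AlgebraicClosure K)) v
      (fun q : Fin (Module.finrank K L) × Fin N =>
        rename (fun c => (q.1, c)) (map (e q.1 : L →+* AlgebraicClosure K) (Φ q.2))) G
    have h' : eval v (sub G) = eval (fun q : Fin (Module.finrank K L) × Fin N => eval v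
        (rename (fun c => (q.1, c)) (map (e q.1 : L →+* AlgebraicClosure K) (Φ q.2)))) G := h
    rw [h']
    congr 2
    funext q
    rw [eval_rename]
    rfl
  have hne : ∀ (G : MvPolynomial (Fin (Module.finrank K L) × Fin N) (AlgebraicClosure K))
      (y : Fin (Module.finrank K L) → Fin N → AlgebraicClosure K), (∀ i, aeval (y i) F = 0) →
      eval (fun q => y q.1 q.2) G ≠ 0 → sub G ≠ 0 := by
    intro G y hy hG h0
    obtain ⟨v, hv⟩ := hP (AlgebraicClosure K) M (Module.finrank K L) N {y | aeval y F = 0}
      (fun i v a => eval v (map (e i : L →+* AlgebraicClosure K) (Φ a)))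
      (fun i g y hy hg => hD.2 (e i) g y hy hg) G y hy hG
    apply hv
    have h := hsub G (fun q => v q.1 q.2)
    rw [h0, map_zero] at h
    exact h.symm
  obtain ⟨z, z', a, b, hz, hz', hab⟩ := hT
  let D : Fin (Module.finrank K L) → Fin (Module.finrank K L) →
      MvPolynomial (Fin (Module.finrank K L) × Fin N) (AlgebraicClosure K) :=
    fun i j => X (i, a) * X (j, b) - X (i, b) * X (j, a)
  have hDne : ∀ i j, i ≠ j → sub (D i j) ≠ 0 := by
    intro i j hij
    refine hne (D i j) (fun k => if k = i then z else z') ?_ ?_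
    · intro k
      by_cases hk : k = i
      · simp only [hk, if_true]; exact hz
      · simp only [hk, if_false]; exact hz'
    · simp only [D, map_sub, map_mul, eval_X, if_true, if_neg hij.symm]
      exact sub_ne_zero.2 hab
  obtain ⟨c, hc⟩ := hW K L M (Module.finrank K L) e
    (sub G * ∏ q : Fin (Module.finrank K L) × Fin (Module.finrank K L),
      (if q.1 = q.2 then 1 else sub (D q.1 q.2)))
    (mul_ne_zero (hne G y hy hG) (Finset.prod_ne_zero_iff.2 (fun q _ => by
      by_cases hq : q.1 = q.2
      · simp only [hq, if_true]; exact one_ne_zero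
      · simp only [hq, if_false]; exact hDne _ _ hq)))
  rw [map_mul, map_prod] at hc
  have hval : ∀ G' : MvPolynomial (Fin (Module.finrank K L) × Fin N) (AlgebraicClosure K),
      eval (fun q : Fin (Module.finrank K L) × M => e q.1 (c q.2)) (sub G') =
      eval (fun q : Fin (Module.finrank K L) × Fin N => e q.1 (eval c (Φ q.2))) G' := by
    intro G'
    rw [hsub]
    congr 2
    funext q
    exact asm_map (e q.1 : L →+* AlgebraicClosure K) c (Φ q.2)
  have hx : ∀ i j, i ≠ j → e i (eval c (Φ a)) * e j (eval c (Φ b)) ≠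
      e i (eval c (Φ b)) * e j (eval c (Φ a)) := by
    intro i j hij
    have h := Finset.prod_ne_zero_iff.1 (right_ne_zero_of_mul hc) (i, j) (Finset.mem_univ _)
    simp only [if_neg hij] at h
    rw [hval] at h
    simp only [D, map_sub, map_mul, eval_X] at h
    exact sub_ne_zero.1 h
  refine ⟨fun i b => e i (eval c (Φ b)), ⟨?_, ?_, ?_, ?_, ?_⟩, ?_⟩
  · intro i
    have h1 : aeval (fun b => e i (eval c (Φ b))) F = e i (aeval (fun b => eval c (Φ b)) F) := by
      rw [← comp_aeval_apply]
    rw [h1]
    have h3 : aeval (fun b => eval c (Φ b)) F = eval c (aeval Φ F) := by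
      rw [aeval_def, aeval_def, eval₂_comp_left (eval c)]
      have h4 : (eval c).comp (algebraMap K (MvPolynomial M L)) = algebraMap K L := by
        ext r
        rw [RingHom.comp_apply, IsScalarTower.algebraMap_apply K L (MvPolynomial M L),
          algebraMap_eq, eval_C]
      rw [h4]
      rfl
    rw [h3, hD.1, map_zero, map_zero]
  · intro i h0
    obtain ⟨j, hj⟩ : ∃ j : Fin (Module.finrank K L), j ≠ i := by
      haveI : Nontrivial (Fin (Module.finrank K L)) := Fin.nontrivial_iff_two_le.2 h2
      exact exists_ne i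
    apply hx i j hj.symm
    have h5 := congrFun h0 a
    have h6 := congrFun h0 b
    simp only [Pi.zero_apply] at h5 h6
    rw [h5, h6, zero_mul, zero_mul]
  · intro i j hij r h0
    apply hx i j hij
    have h5 := congrFun h0 a
    have h6 := congrFun h0 b
    simp only [Pi.smul_apply, smul_eq_mul] at h5 h6
    rw [h5, h6]
    ring
  · intro i j
    obtain ⟨θ, hθ⟩ := hE K L (e i) (e j)
    refine ⟨θ, 1, ?_⟩
    funext a
    simp only [hθ, one_smul]
  · intro θ i
    refine ⟨e.symm ((θ : AlgebraicClosure K →ₐ[K] AlgebraicClosure K).comp (e i)), 1, ?_⟩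
    funext a
    simp only [Equiv.apply_symm_apply, one_smul]
    rfl
  · have h := left_ne_zero_of_mul hc
    rw [hval] at h
    exact h

end Pool.Agent.DQ2.H46
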